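import Pool.Agent.Helper44.GF.Defs

/-! GF, module CF: the Fourier transform of the projected cycle vanishes -/

open Finset MeasureTheory Filter Topology
open scoped ENNReal ContDiff

namespace Pool.Agent.Helper44.GF

/-- testing with a derivative -/
theorem cf_test (hT : ST_TFORM) {m n K : ℕ} {F : Fin K → Face (m + 1) n} {θ : Fin K → ℤ}
    (hc : IsCycle F θ) (f : Fin (m + 1) → Fin n) (h : (Fin (m + 1) → ℝ) → ℝ)
    (hh : ContDiff ℝ ∞ h) (a : Fin (m + 1)) (g : (Fin (m + 1) → ℝ) → ℝ)
    (hg : ∀ y, fderiv ℝ h y (Pi.single a 1) = g y) :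
    ∑ j, (θ j : ℝ) * ((F j).mat.submatrix f id).det
        * ∫ t in (F j).dom, g (fun b => (F j).param t (f b)) = 0 := by
  obtain ⟨w, hw, hw2⟩ := hT m n f h hh a
  rw [← hc w hw]
  refine Finset.sum_congr rfl fun j _ => ?_
  have hM : (Matrix.of fun (b k : Fin (m + 1)) => (F j).dir k (f b)) =
      (F j).mat.submatrix f id := by
    ext b k
    rfl
  unfold Face.intd
  have h1 : ∀ t, extDeriv w ((F j).param t) (F j).dir =
      g (fun b => (F j).param t (f b)) * ((F j).mat.submatrix f id).det := by
    intro t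
    rw [hw2, hg, hM]
  simp only [h1]
  rw [integral_mul_const]
  ring

/-- the phase -/
noncomputable def cf_lin {m : ℕ} (k : Fin (m + 1) → ℝ) : (Fin (m + 1) → ℝ) →L[ℝ] ℝ :=
  ∑ b, k b • ContinuousLinearMap.proj (R := ℝ) (φ := fun _ : Fin (m + 1) => ℝ) b

theorem cf_lin_apply {m : ℕ} (k y : Fin (m + 1) → ℝ) : cf_lin k y = ∑ b, k b * y b := by
  unfold cf_lin
  simp

theorem cf_lin_single {m : ℕ} (k : Fin (m + 1) → ℝ) (a : Fin (m + 1)) :
    cf_lin k (Pi.single a 1) = k a := by
  rw [cf_lin_apply, Finset.sum_eq_single a]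
  · simp
  · intro b _ hb
    simp [hb]
  · intro hh
    exact absurd (Finset.mem_univ _) hh

theorem st_CF (hT : ST_TFORM) : ST_CF := by
  intro m n K F θ hc f k
  by_cases hk : ∀ b, k b = 0
  · have h1 := cf_test hT hc f (fun y => y 0) (contDiff_apply ℝ ℝ 0) 0 (fun _ => 1) (by
      intro y
      have : HasFDerivAt (fun y : Fin (m + 1) → ℝ => y 0)
          (ContinuousLinearMap.proj (R := ℝ) (φ := fun _ : Fin (m + 1) => ℝ) 0) y :=
        (ContinuousLinearMap.proj (R := ℝ) (φ := fun _ : Fin (m + 1) => ℝ) 0).hasFDerivAt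
      rw [this.fderiv]
      simp)
    constructor
    · rw [← h1]
      refine Finset.sum_congr rfl fun j _ => ?_
      congr 1
      simp [hk]
    · refine Finset.sum_eq_zero fun j _ => ?_
      simp [hk]
  · push Not at hk
    obtain ⟨a, ha⟩ := hk
    have hs : ContDiff ℝ ∞ (fun y => Real.sin (cf_lin k y) / k a) :=
      (Real.contDiff_sin.comp (cf_lin k).contDiff).div_const _
    have hcs : ContDiff ℝ ∞ (fun y => -Real.cos (cf_lin k y) / k a) :=
      ((Real.contDiff_cos.comp (cf_lin k).contDiff).neg).div_const _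
    have h1 := cf_test hT hc f _ hs a (fun y => Real.cos (cf_lin k y)) (by
      intro y
      have h2 : HasFDerivAt (fun y => Real.sin (cf_lin k y))
          (Real.cos (cf_lin k y) • (cf_lin k)) y :=
        (Real.hasDerivAt_sin _).comp_hasFDerivAt y (cf_lin k).hasFDerivAt
      have h3 : HasFDerivAt (fun y => Real.sin (cf_lin k y) / k a)
          ((k a)⁻¹ • (Real.cos (cf_lin k y) • (cf_lin k))) y := by
        have := h2.const_smul ((k a)⁻¹)
        refine this.congr_of_eventuallyEq (Eventually.of_forall fun z => ?_)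
        simp [div_eq_inv_mul]
      rw [h3.fderiv]
      simp only [ContinuousLinearMap.smul_apply, cf_lin_single, smul_eq_mul]
      field_simp)
    have h4 := cf_test hT hc f _ hcs a (fun y => Real.sin (cf_lin k y)) (by
      intro y
      have h2 : HasFDerivAt (fun y => Real.cos (cf_lin k y))
          (-Real.sin (cf_lin k y) • (cf_lin k)) y :=
        (Real.hasDerivAt_cos _).comp_hasFDerivAt y (cf_lin k).hasFDerivAt
      have h3 : HasFDerivAt (fun y => -Real.cos (cf_lin k y) / k a)
          ((-(k a)⁻¹) • (-Real.sin (cf_lin k y) • (cf_lin k))) y := by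
        have := h2.const_smul (-(k a)⁻¹)
        refine this.congr_of_eventuallyEq (Eventually.of_forall fun z => ?_)
        simp [div_eq_inv_mul]
      rw [h3.fderiv]
      simp only [ContinuousLinearMap.smul_apply, cf_lin_single, smul_eq_mul]
      field_simp)
    simp only [cf_lin_apply] at h1 h4
    exact ⟨h1, h4⟩

end Pool.Agent.Helper44.GF

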